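import Pool.Agent.helper44.EX.Spec

/-!
# Project ex: (MP_70a088_an): NUL, preimages of null sets
-/

set_option autoImplicit false

open Complex Metric Set Filter Topology MeasureTheory Pool.Agent.helper98.ILF

noncomputable section

namespace EX

theorem NUL : NUL_stmt := by
  intro h Ω N hΩ hh hne hN
  refine measure_null_of_locally_null _ ?_
  rintro z ⟨hz, hzN⟩
  have han : AnalyticAt ℂ h z := (hh.analyticOnNhd hΩ) z hz
  have hs : HasStrictDerivAt h (deriv h z) z := han.hasStrictDerivAt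
  obtain ⟨e, he⟩ : ∃ e : OpenPartialHomeomorph ℂ ℂ, e =
      (hs.hasStrictFDerivAt_equiv (hne z hz)).toOpenPartialHomeomorph h := ⟨_, rfl⟩
  have hco : (e : ℂ → ℂ) = h := by
    rw [he]
    exact (hs.hasStrictFDerivAt_equiv (hne z hz)).toOpenPartialHomeomorph_coe
  have hzs : z ∈ e.source := by
    rw [he]
    exact (hs.hasStrictFDerivAt_equiv (hne z hz)).mem_toOpenPartialHomeomorph_source
  have hW : e.source ∩ Ω ∈ 𝓝 z := (e.open_source.inter hΩ).mem_nhds ⟨hzs, hz⟩
  refine ⟨{z | z ∈ Ω ∧ h z ∈ N} ∩ (e.source ∩ Ω),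
    inter_mem self_mem_nhdsWithin (mem_nhdsWithin_of_mem_nhds hW), ?_⟩
  have hsub : {z | z ∈ Ω ∧ h z ∈ N} ∩ (e.source ∩ Ω) ⊆ e.symm '' (N ∩ h '' (e.source ∩ Ω)) := by
    rintro x ⟨⟨hxΩ, hxN⟩, hxs, -⟩
    refine ⟨h x, ⟨hxN, x, ⟨hxs, hxΩ⟩, rfl⟩, ?_⟩
    rw [← hco]
    exact e.left_inv hxs
  refine measure_mono_null hsub ?_
  refine addHaar_image_eq_zero_of_differentiableOn_of_addHaar_eq_zero volume ?_
    (measure_mono_null inter_subset_left hN)
  rintro _ ⟨-, x, ⟨hxs, hxΩ⟩, rfl⟩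
  have hxt : h x ∈ e.target := by
    rw [← hco]
    exact e.map_source hxs
  have hsx : e.symm (h x) = x := by
    rw [← hco]
    exact e.left_inv hxs
  have hd : HasDerivAt e (deriv h x) (e.symm (h x)) := by
    rw [hsx, hco]
    exact ((hh.differentiableAt (hΩ.mem_nhds hxΩ))).hasDerivAt
  have hd2 := e.hasDerivAt_symm hxt (hne x hxΩ) hd
  exact (hd2.differentiableAt.restrictScalars ℝ).differentiableWithinAt

end EX
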